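import Mathlib
import Pool.Agent.MP_5fa3de_ag.Main

namespace Pool.Agent.Results.MP_5fa3de_ag.QuarticThreefold

open Pool.Agent.MP_5fa3de_ag

/-- There are a smooth quartic threefold `X ⊂ ℙ⁴` over `ℂ` and a field `K ⊇ ℂ` such that the image
of `H³(K, ℚ/ℤ(2))` is a proper subgroup of the unramified group `H³_nr(K(X)/K, ℚ/ℤ(2))`. -/
theorem result : ∃ (Φ : MvPolynomial (Fin 5) ℂ) (K : Type) (_ : Field K) (_ : Algebra ℂ K),
    Φ.IsHomogeneous 4 ∧ Smooth Φ ∧ Fails K Φ :=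
  main

end Pool.Agent.Results.MP_5fa3de_ag.QuarticThreefold
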