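import Mathlib
import Pool.Agent.MP_5fa3de_ag.Q5.Main

namespace Pool.Agent.Results.MP_5fa3de_ag.QuinticFourfold

open Pool.Agent.MP_5fa3de_ag

/-- There is a smooth quintic fourfold `X ⊂ ℙ⁵` over `ℂ` such that the image of `H³(ℂ, ℚ/ℤ(2))`
is a proper subgroup of the unramified group `H³_nr(ℂ(X)/ℂ, ℚ/ℤ(2))`. -/
theorem result : ∃ Φ : MvPolynomial (Fin 6) ℂ, Φ.IsHomogeneous 5 ∧ Smooth Φ ∧ Fails ℂ Φ :=
  Q5.main

end Pool.Agent.Results.MP_5fa3de_ag.QuinticFourfold
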